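import Pool.Agent.Q35.DP.Plan

/-! Project DP, job COMP: irreducible subsets are contained in components. -/

set_option autoImplicit false

namespace Pool.Agent.Q94.DP

open MvPolynomial FF Pool.Agent.W603.LV Pool.Agent.TH145.GH Pool.Agent.Y166.DP Pool.Agent.Q35.DP

theorem van_anti {k σ : Type} [Field k] {A B : Set (σ → k)} (h : A ⊆ B) : van B ≤ van A :=
  fun _ hF z hz => hF z (h hz)

theorem irr_union {k σ : Type} [Field k] (c : Set (Set (σ → k))) (hc : IsChain (· ⊆ ·) c)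
    (hne : c.Nonempty) (hI : ∀ s ∈ c, IsIrr s) : IsIrr (⋃₀ c) := by
  have hle : ∀ s ∈ c, van (⋃₀ c) ≤ van s := fun s hs => van_anti (Set.subset_sUnion_of_mem hs)
  have hmem : ∀ F : MvPolynomial σ k, F ∉ van (⋃₀ c) → ∃ s ∈ c, F ∉ van s := by
    intro F hF
    by_contra hcon
    push Not at hcon
    apply hF
    intro z hz
    obtain ⟨s, hs, hzs⟩ := hz
    exact hcon s hs z hzs
  refine ⟨?_, ?_⟩
  · obtain ⟨s, hs⟩ := hne
    intro htop
    have h1 := hle s hs
    rw [htop, top_le_iff] at h1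
    exact (hI s hs).ne_top h1
  · intro F G hFG
    by_contra hcon
    push Not at hcon
    obtain ⟨hF, hG⟩ := hcon
    obtain ⟨s, hs, hFs⟩ := hmem F hF
    obtain ⟨t, ht, hGt⟩ := hmem G hG
    rcases hc.total hs ht with h | h
    · rcases (hI t ht).mem_or_mem (hle t ht hFG) with h1 | h1
      · exact hFs (van_anti h h1)
      · exact hGt h1
    · rcases (hI s hs).mem_or_mem (hle s hs hFG) with h1 | h1
      · exact hFs h1
      · exact hGt (van_anti h h1)

theorem comp : StmComp := by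
  intro k σ _ _ W Z hZW hZ
  obtain ⟨M, hZM, hM⟩ := zorn_subset_nonempty {M : Set (σ → k) | M ⊆ W ∧ IsIrr M}
    (fun c hcS hc hne => ⟨⋃₀ c, ⟨Set.sUnion_subset fun s hs => (hcS hs).1,
      irr_union c hc hne fun s hs => (hcS hs).2⟩, fun s hs => Set.subset_sUnion_of_mem hs⟩)
    Z ⟨hZW, hZ⟩
  refine ⟨M, ⟨hM.prop.1, hM.prop.2, fun M' hM'W hM' hle => ?_⟩, hZM⟩
  exact Set.Subset.antisymm (hM.le_of_ge (y := M') ⟨hM'W, hM'⟩ hle) hle

end Pool.Agent.Q94.DP
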