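import Pool.Agent.Q35.DP.Plan

/-! Project DP, job DIM: monotonicity of the dimension. -/

set_option autoImplicit false

namespace Pool.Agent.Q94.DP

open MvPolynomial FF Pool.Agent.W603.LV Pool.Agent.TH145.GH Pool.Agent.Y166.DP Pool.Agent.Q35.DP

theorem dim : StmDim := by
  intro k σ _ _ Z M hZM hZ hM
  have hle : van M ≤ van Z := fun _ hF z hz => hF z (hZM hz)
  have : (van M).IsPrime := hM
  unfold dimA
  refine Cardinal.toNat_le_toNat ?_ ?_
  · exact trdeg_le_of_surjective (Ideal.Quotient.factorₐ k hle)
      (Ideal.Quotient.factor_surjective hle)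
  · have : Algebra.FiniteType k (MvPolynomial σ k ⧸ van M) :=
      Algebra.FiniteType.of_surjective (Ideal.Quotient.mkₐ k (van M))
        (Ideal.Quotient.mkₐ_surjective k (van M))
    exact trdeg_lt_aleph0_of_finiteType

end Pool.Agent.Q94.DP
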